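import Mathlib
import Pool.Agent.K3h45.CT.C19

set_option autoImplicit false

/-!
Generalised Collatz maps of coprime type with `∏ |m_i / d| < 1`: the central limit theorem for the times at which
the trajectories become periodic.
-/

namespace Pool.Agent.Results.MP_39d40e_nt.CyclingTimes

open Finset Filter Topology

/-- The generalised Collatz map `T(x) = (m_i x - r_i) / d` for `x ≡ i mod d`, `0 ≤ i < d`. -/
def T (d : ℕ) (m r : ℕ → ℤ) (x : ℤ) : ℤ := (m (x % d).toNat * x - r (x % d).toNat) / d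

/-- `S` has natural density `δ` on the side `σ` (`σ = 1`: positive integers, `σ = -1`: negative
integers): `#{x ∈ S : 1 ≤ σ x ≤ N} / N → δ`. -/
def HasDensity (S : Set ℤ) (σ : ℤ) (δ : ℝ) : Prop :=
  Tendsto (fun N : ℕ => (Set.ncard {x : ℤ | x ∈ S ∧ 1 ≤ σ * x ∧ σ * x ≤ N} : ℝ) / N) atTop (𝓝 δ)

/-- the periodic integers, that is the elements of the cycles -/
def Periodic (d : ℕ) (m r : ℕ → ℤ) : Set ℤ := {x | ∃ p : ℕ, 1 ≤ p ∧ (T d m r)^[p] x = x}

/-- The trajectory of `x` is in `F` for the first time at the time `n`. -/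
def FirstTime (d : ℕ) (m r : ℕ → ℤ) (F : Set ℤ) (x : ℤ) (n : ℕ) : Prop :=
  (T d m r)^[n] x ∈ F ∧ ∀ k < n, (T d m r)^[k] x ∉ F

/-- the mean of the numbers `log (d / |m_i|)` -/
noncomputable def mean (d : ℕ) (m : ℕ → ℤ) : ℝ := (∑ i ∈ range d, Real.log (d / |(m i : ℝ)|)) / d

/-- the variance of the numbers `log (d / |m_i|)` -/
noncomputable def variance (d : ℕ) (m : ℕ → ℤ) : ℝ :=
  (∑ i ∈ range d, (Real.log (d / |(m i : ℝ)|) - mean d m) ^ 2) / d

/-- `log |x| / μ + y √(v log |x| / μ ^ 3)` with the mean `μ` and the variance `v` -/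
noncomputable def bound (d : ℕ) (m : ℕ → ℤ) (y : ℝ) (x : ℤ) : ℝ :=
  Real.log |(x : ℝ)| / mean d m + y * Real.sqrt (variance d m * Real.log |(x : ℝ)| / mean d m ^ 3)

/-- the distribution function of the standard normal law -/
noncomputable def Phi (y : ℝ) : ℝ := (∫ t in Set.Iic y, Real.exp (-(t ^ 2 / 2))) / Real.sqrt (2 * Real.pi)

/-- Let `T` be of coprime type (`gcd(m_i, d) = 1`) with `Λ < 1`, that is `∏ |m_i / d| < 1`, and not all `|m_i|`
equal. Let `F` be a set of integers of which only finitely many elements are not periodic, for example a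
finite set, the set of all periodic integers (then the first time in `F` is the time at which the trajectory
becomes periodic), or a set with one element of each cycle.
(1) On each side the integers whose trajectory meets `F` have a natural density `δ`, and for every real `y` those
for which, moreover, the first time in `F` is at most `log |x| / μ + y √(v log |x| / μ ^ 3)` have natural density
`δ Φ(y)`; here `μ > 0` and `v > 0` are the mean and the variance of the numbers `log (d / |m_i|)`, and `Φ` is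
the normal distribution function.
(2) For every `B` there is `C` such that `δ ≥ 1 - C / (log z) ^ B` for all these `F` which contain the integers of
`[-z, z]`. -/
theorem result (d : ℕ) (hd : 2 ≤ d) (m r : ℕ → ℤ) (hm : ∀ i < d, IsCoprime (m i) (d : ℤ))
    (hr : ∀ i < d, r i ≡ i * m i [ZMOD d]) (hL : ∏ i ∈ range d, |(m i : ℝ) / d| < 1)
    (hne : ∃ i < d, ∃ j < d, |m i| ≠ |m j|) :
    0 < mean d m ∧ 0 < variance d m ∧
    (∀ F : Set ℤ, {x | x ∈ F ∧ x ∉ Periodic d m r}.Finite → ∀ σ : ℤ, (σ = 1 ∨ σ = -1) → ∃ δ : ℝ,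
      0 ≤ δ ∧ δ ≤ 1 ∧ HasDensity {x | ∃ n : ℕ, (T d m r)^[n] x ∈ F} σ δ ∧
      ∀ y : ℝ, HasDensity {x | ∃ n : ℕ, FirstTime d m r F x n ∧ (n : ℝ) ≤ bound d m y x} σ (δ * Phi y)) ∧
    (∀ B : ℕ, ∃ C : ℝ, 0 < C ∧ ∀ F : Set ℤ, {x | x ∈ F ∧ x ∉ Periodic d m r}.Finite → ∀ z : ℝ, 2 ≤ z →
      (∀ x : ℤ, |(x : ℝ)| ≤ z → x ∈ F) → ∀ σ : ℤ, (σ = 1 ∨ σ = -1) → ∀ δ : ℝ,
        HasDensity {x | ∃ n : ℕ, (T d m r)^[n] x ∈ F} σ δ → 1 - C / Real.log z ^ B ≤ δ) := by
  obtain ⟨i, hi, j, hj, hij⟩ := hne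
  have hij' : (m i).natAbs ≠ (m j).natAbs := by
    intro hcon
    apply hij
    rw [Int.abs_eq_natAbs, Int.abs_eq_natAbs, hcon]
  have hd0 : (0 : ℝ) < d := by positivity
  have hadm : ∀ i < d, (d : ℤ) ∣ m i * i - r i := by
    intro i hi
    have h1 := (hr i hi).dvd
    rwa [mul_comm (i : ℤ)] at h1
  have hc : ∏ i ∈ range d, (m i).natAbs < d ^ d := by
    have h1 : ∏ i ∈ range d, |(m i : ℝ) / d| = (∏ i ∈ range d, |(m i : ℝ)|) / (d : ℝ) ^ d := by
      simp only [abs_div, abs_of_pos hd0]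
      rw [Finset.prod_div_distrib, Finset.prod_const, card_range]
    rw [h1, div_lt_one (by positivity)] at hL
    have h2 : ((∏ i ∈ range d, (m i).natAbs : ℕ) : ℝ) = ∏ i ∈ range d, |(m i : ℝ)| := by
      push_cast
      refine Finset.prod_congr rfl fun i _ => ?_
      rw [Nat.cast_natAbs]
      push_cast
      rfl
    have h3 : ((∏ i ∈ range d, (m i).natAbs : ℕ) : ℝ) < ((d ^ d : ℕ) : ℝ) := by
      rw [h2]; push_cast; exact hL
    exact_mod_cast h3
  have hnz : ∀ i ∈ range d, 1 ≤ (m i).natAbs := by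
    intro i hi
    rcases Nat.eq_zero_or_pos (m i).natAbs with h0 | h0
    · exfalso
      have h1 := hm i (mem_range.1 hi)
      rw [Int.natAbs_eq_zero.1 h0] at h1
      have h2 := isCoprime_zero_left.1 h1
      have h3 := Int.isUnit_iff.1 h2
      omega
    · exact h0
  have hbig : 2 ≤ ∏ i ∈ range d, (m i).natAbs := by
    have h1 : 2 ≤ (m i).natAbs ∨ 2 ≤ (m j).natAbs := by
      have h2 := hnz i (mem_range.2 hi)
      have h3 := hnz j (mem_range.2 hj)
      omega
    have h4 : ∀ l < d, (m l).natAbs ≤ ∏ i ∈ range d, (m i).natAbs := by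
      intro l hl
      exact Nat.le_of_dvd (Finset.prod_pos fun i hi => hnz i hi)
        (Finset.dvd_prod_of_mem _ (mem_range.2 hl))
    rcases h1 with h1 | h1
    · exact h1.trans (h4 i hi)
    · exact h1.trans (h4 j hj)
  have hA : H319R3.GC.Adm d m r := ⟨hd, hm, hadm, hc, hbig⟩
  -- the constants
  have hlog : ∀ k : ℕ, Real.log (d / |(m k : ℝ)|) = -K3h45.CT.xi d m k := by
    intro k
    unfold K3h45.CT.xi
    rw [← Real.log_inv, inv_div]
  have hmean : mean d m = K3h45.CT.mn d (K3h45.CT.xi d m) := by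
    unfold mean K3h45.CT.mn
    rw [sum_congr rfl fun k _ => hlog k, sum_neg_distrib]
  have hvar : variance d m = K3h45.CT.vr d (K3h45.CT.xi d m) := by
    unfold variance K3h45.CT.vr
    congr 1
    refine sum_congr rfl fun k _ => ?_
    rw [hlog k, ← hmean]
    ring
  have hGN : ∀ (S : Set ℤ) (σ : ℤ), (σ = 1 ∨ σ = -1) → ∀ N : ℕ,
      H319R3.DN.G S σ ((N : ℝ) + 1) =
        (Set.ncard {x : ℤ | x ∈ S ∧ 1 ≤ σ * x ∧ σ * x ≤ N} : ℝ) := by
    intro S σ hσ N
    unfold H319R3.DN.G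
    congr 2
    ext x
    simp only [Set.mem_ofPred_eq]
    constructor
    · rintro ⟨h1, h2, h3⟩
      refine ⟨h1, by omega, ?_⟩
      have h4 : (σ * x : ℤ) < (N : ℤ) + 1 := by exact_mod_cast h3
      omega
    · rintro ⟨h1, h2, h3⟩
      refine ⟨h1, by omega, ?_⟩
      have h4 : (σ * x : ℤ) < (N : ℤ) + 1 := by omega
      exact_mod_cast h4
  -- comparison of the two kinds of limits
  have hcomp : ∀ (S : Set ℤ) (σ : ℤ), (σ = 1 ∨ σ = -1) → ∀ δ : ℝ,
      Tendsto (H319R3.DN.Fw S σ) atTop (𝓝 δ) → HasDensity S σ δ := by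
    intro S σ hσ δ hδ'
    have hδ := H319R3.DN.dens_of_Fw S hσ hδ'
    unfold HasDensity
    have h1 : Tendsto (fun N : ℕ => ((N : ℝ) + 1)) atTop atTop :=
      tendsto_atTop_add_const_right _ _ tendsto_natCast_atTop_atTop
    have h2 := hδ.comp h1
    have h3 : Tendsto (fun N : ℕ => ((N : ℝ) + 1) / N) atTop (𝓝 1) := by
      have h4 : Tendsto (fun N : ℕ => 1 + 1 / (N : ℝ)) atTop (𝓝 (1 + 0)) :=
        tendsto_const_nhds.add tendsto_one_div_atTop_nhds_zero_nat
      rw [add_zero] at h4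
      refine h4.congr' ?_
      filter_upwards [eventually_gt_atTop 0] with N hN
      have : (0 : ℝ) < N := by exact_mod_cast hN
      field_simp
    have h5 := h2.mul h3
    rw [mul_one] at h5
    refine h5.congr' ?_
    filter_upwards [eventually_gt_atTop 0] with N hN
    have : (0 : ℝ) < N := by exact_mod_cast hN
    simp only [Function.comp]
    rw [hGN S σ hσ N]
    field_simp
  have hper : Periodic d m r = Function.periodicPts (H319R3.GC.Tm d m r) := by
    ext x
    rw [Function.mem_periodicPts]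
    exact Iff.rfl
  refine ⟨?_, ?_, ?_, ?_⟩
  · rw [hmean]; exact (K3h45.CT.drift_eq hA).1
  · rw [hvar]; exact K3h45.CT.vr_pos hA hi hj hij'
  · intro F hF σ hσ
    rw [hper] at hF
    obtain ⟨l, hl0, hl1, hl, hly⟩ := K3h45.CT.clt_per hA hi hj hij' hF σ hσ
    refine ⟨l, hl0, hl1, hcomp _ σ hσ l hl, fun y => ?_⟩
    have h1 := hcomp _ σ hσ _ (hly y)
    have h2 : {x | ∃ n : ℕ, FirstTime d m r F x n ∧ (n : ℝ) ≤ bound d m y x} =
        K3h45.CT.Sy d m (K3h45.CT.hit d m r F) (K3h45.CT.fst d m r F) y := by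
      have hb : ∀ x : ℤ, bound d m y x = K3h45.CT.thr d m y (Real.log |(x : ℝ)|) := by
        intro x
        unfold bound K3h45.CT.thr K3h45.CT.qq
        rw [hmean, hvar]
      ext x
      constructor
      · rintro ⟨n, h3, h4⟩
        refine ⟨⟨n, h3.1⟩, ?_⟩
        rw [K3h45.CT.fst_eq h3.1 h3.2, ← hb]
        exact h4
      · rintro ⟨h3, h4⟩
        obtain ⟨n, h5, h6⟩ := K3h45.CT.exists_first h3
        refine ⟨n, ⟨h5, h6⟩, ?_⟩
        rw [K3h45.CT.fst_eq h5 h6, ← hb] at h4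
        exact h4
    rw [h2]
    exact h1
  · intro B
    obtain ⟨C, hC, HC⟩ := K3h45.CT.Fw_tail hA B
    refine ⟨C, hC, fun F hF z hz hzF σ hσ δ hδ => ?_⟩
    rw [hper] at hF
    obtain ⟨l, hl0, hl1, hl, -⟩ := K3h45.CT.clt_per hA hi hj hij' hF σ hσ
    have h1 : δ = l := tendsto_nhds_unique hδ (hcomp _ σ hσ l hl)
    rw [h1]
    have huniv : Tendsto (H319R3.DN.Fw Set.univ σ) atTop (𝓝 1) := by
      have h2 : ∀ t : ℝ, 1 - Real.exp (-t) ≤ H319R3.DN.Fw Set.univ σ t ∧
          H319R3.DN.Fw Set.univ σ t ≤ 1 + Real.exp (-t) := by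
        intro t
        exact K3h45.CT.Fw_univ hσ t
      have h3 : Tendsto (fun t : ℝ => 1 - Real.exp (-t)) atTop (𝓝 (1 - 0)) :=
        tendsto_const_nhds.sub Real.tendsto_exp_neg_atTop_nhds_zero
      have h4 : Tendsto (fun t : ℝ => 1 + Real.exp (-t)) atTop (𝓝 (1 + 0)) :=
        tendsto_const_nhds.add Real.tendsto_exp_neg_atTop_nhds_zero
      rw [sub_zero] at h3
      rw [add_zero] at h4
      exact tendsto_of_tendsto_of_tendsto_of_le_of_le h3 h4 (fun t => (h2 t).1) fun t => (h2 t).2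
    have h2 : Tendsto (fun t => H319R3.DN.Fw Set.univ σ t - H319R3.DN.Fw (K3h45.CT.hit d m r F) σ t) atTop
        (𝓝 (1 - l)) := huniv.sub hl
    have h3 : 1 - l ≤ C / Real.log z ^ B := by
      refine le_of_tendsto h2 ?_
      filter_upwards [eventually_ge_atTop 0] with t ht
      have h4 := K3h45.CT.Fw_sub_add (S := Set.univ) (S' := K3h45.CT.hit d m r F)
        (S'' := {x | x ∉ K3h45.CT.hit d m r F}) (fun x _ => by
          by_cases hx : x ∈ K3h45.CT.hit d m r F
          · exact Or.inl hx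
          · exact Or.inr hx) hσ t
      have h5 := HC z hz {x | x ∉ K3h45.CT.hit d m r F} (fun x hx n => by
        by_contra hcon
        exact hx ⟨n, hzF _ (not_lt.1 hcon)⟩) σ hσ t ht
      linarith
    linarith

end Pool.Agent.Results.MP_39d40e_nt.CyclingTimes
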