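import Pool.Agent.K3h65.LP.Nat
import Pool.Agent.K3h65.LP.PowEx

/-!
# Generalised Collatz maps of coprime type and the fractional parts of `β n ^ c`

Let `T` be a generalised Collatz map of coprime type with `Λ < 1`, and let `c > 1` be not an integer. The integers
in invariant sets are distributed independently of the fractional parts of `β n ^ c`, and the invariant sets have
their natural densities, and almost all trajectories come down, in the sparse sets of the `n ≤ X` for which the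
fractional part of `β n ^ c` is less than `X ^ (-ν)`, uniformly for `X ^ (-η) ≤ |β| ≤ X ^ η`.

Method: the dispersion argument for the fibres of the iterates of `T` and the derivative test of van der Corput for
the differences `β (n + u) ^ c - β n ^ c` on progressions.
-/

set_option autoImplicit false

namespace Pool.Agent.Results.MP_39d40e_nt.FractionalPowersModuloOne

open Finset Filter Topology

/-- The generalised Collatz map `T(x) = (m_i x - r_i) / d` for `x ≡ i mod d`, `0 ≤ i < d`. -/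
def T (d : ℕ) (m r : ℕ → ℤ) (x : ℤ) : ℤ := (m (x % d).toNat * x - r (x % d).toNat) / d

/-- The data of a map of coprime type (`gcd(m_i, d) = 1`) with `Λ < 1`, that is `∏ |m_i / d| < 1`, and with
some `m_i` different from `1` and `-1`. -/
def Coprime (d : ℕ) (m r : ℕ → ℤ) : Prop :=
  2 ≤ d ∧ (∀ i < d, IsCoprime (m i) (d : ℤ)) ∧ (∀ i < d, r i ≡ i * m i [ZMOD d]) ∧
    ∏ i ∈ range d, |(m i : ℝ) / d| < 1 ∧ ∃ i < d, |m i| ≠ 1

/-- `|F| ≤ 1`, and `F` takes the same value at `x` and `y` whenever the trajectories of `x` and `y` meet after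
`k` steps, where `d ^ (8 k) < |x|, |y|`: `T^k x = T^k y`. For example the characteristic functions of all unions
of classes of trajectories that meet. -/
def Synchronous (d : ℕ) (m r : ℕ → ℤ) (F : ℤ → ℝ) : Prop :=
  (∀ x, |F x| ≤ 1) ∧ ∀ (k : ℕ) (x y : ℤ), (d : ℤ) ^ (8 * k) < |x| → (d : ℤ) ^ (8 * k) < |y| →
    (T d m r)^[k] x = (T d m r)^[k] y → F x = F y

/-- `S` is invariant: `x ∈ S` if and only if `T x ∈ S` (unions of classes of trajectories that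
meet). -/
def Invariant (d : ℕ) (m r : ℕ → ℤ) (S : Set ℤ) : Prop := ∀ x : ℤ, x ∈ S ↔ T d m r x ∈ S

/-- `S` has natural density `δ` on the side `σ` (`σ = 1`: positive integers, `σ = -1`: negative
integers): `#{x ∈ S : 1 ≤ σ x ≤ N} / N → δ`. -/
def HasDensity (S : Set ℤ) (σ : ℤ) (δ : ℝ) : Prop :=
  Tendsto (fun N : ℕ => (Set.ncard {x : ℤ | x ∈ S ∧ 1 ≤ σ * x ∧ σ * x ≤ N} : ℝ) / N) atTop (𝓝 δ)

open Classical in
/-- The `n` in `[1, X]` for which the fractional part of `β n ^ c` is in `[u, v)`. -/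
noncomputable def Frac (c β u v : ℝ) (X : ℕ) : Finset ℕ :=
  (Icc 1 X).filter (fun n : ℕ => u ≤ Int.fract (β * (n : ℝ) ^ c) ∧ Int.fract (β * (n : ℝ) ^ c) < v)

/-! ### proofs -/

open Pool.Agent.K3h65.LP

variable {d : ℕ} {m r : ℕ → ℤ}

theorem adm_of (h : Coprime d m r) : Pool.Agent.H319R3.GC.Adm d m r := PiatetskiShapiroTerms.adm_of h

theorem sync_of (h : Coprime d m r) {F : ℤ → ℝ} (hF : Synchronous d m r F) (N : ℕ) :
    SyncM d m r N F :=
  syncM_of (Pool.Agent.Y965.GP.syncN_of (by have := h.1; omega) hF.1 hF.2 N)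

open Classical in
theorem count_eq (σ : ℤ) (c β w : ℝ) (S : Set ℤ) (X : ℕ) :
    (((Frac c β 0 w X).filter (fun n : ℕ => σ * (n : ℤ) ∈ S)).card : ℝ) =
      ∑ n ∈ Icc 1 X, (if Int.fract (β * (n : ℝ) ^ c) < w then (1 : ℝ) else 0) *
        Pool.Agent.Y965.GP.ind S (σ * (n : ℤ)) := by
  unfold Frac Pool.Agent.Y965.GP.ind
  rw [filter_filter, ← Finset.sum_boole]
  apply sum_congr rfl
  intro n _
  simp only [Int.fract_nonneg, true_and]
  by_cases h1 : Int.fract (β * (n : ℝ) ^ c) < w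
  · by_cases h2 : σ * (n : ℤ) ∈ S
    · simp [h1, h2]
    · simp [h1, h2]
  · simp [h1]

open Classical in
/-- **Generalised Collatz maps and the fractional parts of `β n ^ c`.** Let `T` be a generalised Collatz map of coprime
type with `Λ < 1` (and some `m_i ≠ ± 1`), and let `c > 1` be a real number that is not an integer. There is `η > 0`
such that, for both signs `σ`:
(1) there is `K` such that for ALL synchronous functions `F`, all `X ≥ 1`, all real `β` with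
`X ^ (-η) ≤ |β| ≤ X ^ η` and all intervals `[u, v)` in `[0, 1]`, the sum of `F (σ n)` over the `n ≤ X` for which the
fractional part of `β n ^ c` is in the interval is `v - u` times the sum over all `n ≤ X`, up to `K X ^ (1 - η)`.
Let `0 ≤ ν ≤ η / 2`.
(2) For every `B` there is `C` such that for all `X ≥ 1`, all such `β` and all `y ≥ 2` for all but at most
`C X ^ (1 - ν) / (log y) ^ B` of the `n ≤ X` for which the fractional part of `β n ^ c` is less than `X ^ (-ν)` the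
trajectory of `σ n` enters `[-y, y]`.
(3) If not all `|m_i|` are equal, for every `ε > 0` and all large `X`, for ALL invariant sets `S` at once `S` has a
natural density `μ` on the side `σ`, and for all such `β` it contains `σ n` for between `(μ - ε) X ^ (1 - ν)` and
`(μ + ε) X ^ (1 - ν)` of the `n ≤ X` for which the fractional part of `β n ^ c` is less than `X ^ (-ν)`. -/
theorem result (d : ℕ) (m r : ℕ → ℤ) (h : Coprime d m r) (c : ℝ) (hc : 1 < c) (hni : ∀ k : ℕ, c ≠ k) :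
    ∃ η : ℝ, 0 < η ∧ ∀ σ : ℤ, (σ = 1 ∨ σ = -1) →
      (∃ K : ℝ, ∀ F : ℤ → ℝ, Synchronous d m r F → ∀ X : ℕ, 1 ≤ X → ∀ β : ℝ, (X : ℝ) ^ (-η) ≤ |β| →
        |β| ≤ (X : ℝ) ^ η → ∀ u v : ℝ, 0 ≤ u → u ≤ v → v ≤ 1 →
          |∑ n ∈ Frac c β u v X, F (σ * n) - (v - u) * ∑ n ∈ Icc 1 X, F (σ * n)| ≤ K * (X : ℝ) ^ (1 - η)) ∧
      ∀ ν : ℝ, 0 ≤ ν → ν ≤ η / 2 →
        (∀ B : ℕ, ∃ C : ℝ, ∀ (X : ℕ) (y : ℝ), 1 ≤ X → 2 ≤ y → ∀ β : ℝ, (X : ℝ) ^ (-η) ≤ |β| → |β| ≤ (X : ℝ) ^ η →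
          (((Frac c β 0 ((X : ℝ) ^ (-ν)) X).filter (fun n : ℕ => ∀ j : ℕ,
            y < |(((T d m r)^[j] (σ * n) : ℤ) : ℝ)|)).card : ℝ) ≤ C * (X : ℝ) ^ (1 - ν) / Real.log y ^ B) ∧
        ((∃ i < d, ∃ j < d, |m i| ≠ |m j|) → ∀ ε : ℝ, 0 < ε → ∃ X₀ : ℕ, ∀ S : Set ℤ, Invariant d m r S →
          ∃ μ : ℝ, HasDensity S σ μ ∧ ∀ X : ℕ, X₀ ≤ X → ∀ β : ℝ, (X : ℝ) ^ (-η) ≤ |β| → |β| ≤ (X : ℝ) ^ η →
            |(((Frac c β 0 ((X : ℝ) ^ (-ν)) X).filter (fun n : ℕ => σ * (n : ℤ) ∈ S)).card : ℝ) -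
              μ * (X : ℝ) ^ (1 - ν)| ≤ ε * (X : ℝ) ^ (1 - ν)) := by
  obtain ⟨η1, C1, c1, hη0, hη1, hC1, hc1, hEx⟩ := pow_Ex (adm_of h) hc hni
  obtain ⟨C2, c2, hC2, hc20, hc21, hdisc⟩ := disc_Ex (d := d) (m := m) (r := r) hη0 hη1 hC1 hc1
  -- the common exponent
  obtain ⟨η, hη, hηη, hηc⟩ : ∃ η : ℝ, 0 < η ∧ η ≤ η1 ∧ η ≤ c2 :=
    ⟨min η1 c2, lt_min hη0 hc20, min_le_left _ _, min_le_right _ _⟩
  have hrange : ∀ (X : ℕ) (β : ℝ), 1 ≤ X → (X : ℝ) ^ (-η) ≤ |β| → |β| ≤ (X : ℝ) ^ η →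
      (X : ℝ) ^ (-η1) ≤ |β| ∧ |β| ≤ (X : ℝ) ^ η1 := by
    intro X β hX h1 h2
    have hXR : (1 : ℝ) ≤ X := by exact_mod_cast hX
    exact ⟨(Real.rpow_le_rpow_of_exponent_le hXR (by linarith)).trans h1,
      h2.trans (Real.rpow_le_rpow_of_exponent_le hXR hηη)⟩
  have hD : ∀ (σ : ℤ), (σ = 1 ∨ σ = -1) → ∀ X : ℕ, 1 ≤ X → ∀ F : ℤ → ℝ, SyncM d m r X F → ∀ β : ℝ,
      (X : ℝ) ^ (-η) ≤ |β| → |β| ≤ (X : ℝ) ^ η → ∀ u v : ℝ, 0 ≤ u → u ≤ v → v ≤ 1 →
      |∑ n ∈ Icc 1 X, (if u ≤ Int.fract (β * (n : ℝ) ^ c) ∧ Int.fract (β * (n : ℝ) ^ c) < v then (1 : ℝ) else 0) *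
        F (σ * (n : ℤ)) - (v - u) * ∑ n ∈ Icc 1 X, F (σ * (n : ℤ))| ≤ C2 * (X : ℝ) ^ (1 - η) := by
    intro σ hσ X hX F hF β h1 h2 u v hu huv hv
    obtain ⟨g1, g2⟩ := hrange X β hX h1 h2
    have hXR : (1 : ℝ) ≤ X := by exact_mod_cast hX
    refine (hdisc σ X hX _ (hEx σ hσ X hX β g1 g2) F hF u v hu huv hv).trans ?_
    exact mul_le_mul_of_nonneg_left (Real.rpow_le_rpow_of_exponent_le hXR (by linarith)) hC2
  have hT : ∀ (σ : ℤ), (σ = 1 ∨ σ = -1) → ∀ X : ℕ, 1 ≤ X → ∀ β : ℝ,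
      (X : ℝ) ^ (-η) ≤ |β| → |β| ≤ (X : ℝ) ^ η → ∀ ν : ℝ, 0 ≤ ν → Tr d m r σ X
        (fun n : ℕ => if Int.fract (β * (n : ℝ) ^ c) < (X : ℝ) ^ (-ν) then 1 else 0) ((X : ℝ) ^ (-ν))
        (C2 * (X : ℝ) ^ (1 - 2 * (η / 2))) := by
    intro σ hσ X hX β h1 h2 ν hν
    have hXR : (1 : ℝ) ≤ X := by exact_mod_cast hX
    refine ⟨fun n => by dsimp only; split_ifs <;> norm_num, fun F hF => ?_⟩
    have h3 := hD σ hσ X hX F hF β h1 h2 0 ((X : ℝ) ^ (-ν)) le_rfl (by positivity)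
      (Real.rpow_le_one_of_one_le_of_nonpos hXR (by linarith))
    rw [sub_zero] at h3
    simp only [Int.fract_nonneg, true_and] at h3
    have e2 : 1 - 2 * (η / 2) = 1 - η := by ring
    rw [e2]
    exact h3
  have hpow : ∀ (X : ℕ) (ν : ℝ), 1 ≤ X → (X : ℝ) ^ (-ν) * X = (X : ℝ) ^ (1 - ν) := by
    intro X ν hX
    have hX0 : (0 : ℝ) < X := by exact_mod_cast hX
    rw [sub_eq_neg_add, Real.rpow_add hX0, Real.rpow_one]
  refine ⟨η, hη, fun σ hσ => ⟨⟨C2, ?_⟩, fun ν hν0 hνa => ⟨fun B => ?_, fun hne ε hε => ?_⟩⟩⟩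
  · intro F hF X hX β h1 h2 u v hu huv hv
    have h3 := hD σ hσ X hX F (sync_of h hF X) β h1 h2 u v hu huv hv
    have e1 : ∑ n ∈ Frac c β u v X, F (σ * n) = ∑ n ∈ Icc 1 X,
        (if u ≤ Int.fract (β * (n : ℝ) ^ c) ∧ Int.fract (β * (n : ℝ) ^ c) < v then (1 : ℝ) else 0) * F (σ * (n : ℤ)) := by
      unfold Frac
      rw [sum_filter]
      apply sum_congr rfl
      intro n _
      split_ifs <;> simp
    rw [e1]
    exact h3
  · obtain ⟨C, -, hC⟩ := av_sparse (adm_of h) (show 0 < η / 2 by positivity) hC2 B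
    refine ⟨C, fun X y hX hy β hb1 hb2 => ?_⟩
    have hXR : (1 : ℝ) ≤ X := by exact_mod_cast hX
    have h1 := hC σ hσ X hX _ _ (Real.rpow_le_rpow_of_exponent_le hXR (by linarith)) (hT σ hσ X hX β hb1 hb2 ν hν0) y hy
    rw [hpow X ν hX, ← count_eq] at h1
    exact h1
  · obtain ⟨X0, hX0⟩ := unif_sparse (nat_of h hne hσ) (show 0 < η / 2 by positivity) C2 hε
    refine ⟨X0 + 1, fun S hS => ?_⟩
    obtain ⟨μ, hμ⟩ := dens_of h hne hσ S hS
    refine ⟨μ, (PiatetskiShapiroTerms.DSs_iff hσ S μ).1 hμ, fun X hX β hb1 hb2 => ?_⟩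
    have hXR : (1 : ℝ) ≤ X := by exact_mod_cast (by omega : 1 ≤ X)
    have h1 := hX0 X (by omega) _ _ (Real.rpow_le_rpow_of_exponent_le hXR (by linarith))
      (hT σ hσ X (by omega) β hb1 hb2 ν hν0) S hS μ hμ
    rw [hpow X ν (by omega), ← count_eq] at h1
    exact h1

end Pool.Agent.Results.MP_39d40e_nt.FractionalPowersModuloOne
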