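import Pool.Agent.K3h65.LP.Nat
import Pool.Agent.K3h65.LP.DiscP

/-!
# Generalised Collatz maps of coprime type and polynomials modulo one

Let `T` be a generalised Collatz map of coprime type with `Λ < 1`, and let `F` be a bounded function that is
constant on coalescing trajectories. A Weyl inequality holds for the sums of `F (σ n) e(P n)`, uniformly in `F`
and `P` (`Pool.Agent.K3h65.LP.weyl_ph`). So the integers in invariant sets are distributed independently of the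
fractional parts of `P n`, and the invariant sets have their natural densities, and almost all trajectories come
down, in the sparse sets of the `n ≤ X` for which the fractional part of `P n` is less than `X ^ (-ν)`.
-/

set_option autoImplicit false

namespace Pool.Agent.Results.MP_39d40e_nt.PolynomialsModuloOne

open Finset Filter Topology

/-- The generalised Collatz map `T(x) = (m_i x - r_i) / d` for `x ≡ i mod d`, `0 ≤ i < d`. -/
def T (d : ℕ) (m r : ℕ → ℤ) (x : ℤ) : ℤ := (m (x % d).toNat * x - r (x % d).toNat) / d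

/-- The data of a map of coprime type (`gcd(m_i, d) = 1`) with `Λ < 1`, that is `∏ |m_i / d| < 1`, and with
some `m_i` different from `1` and `-1`. -/
def Coprime (d : ℕ) (m r : ℕ → ℤ) : Prop :=
  2 ≤ d ∧ (∀ i < d, IsCoprime (m i) (d : ℤ)) ∧ (∀ i < d, r i ≡ i * m i [ZMOD d]) ∧
    ∏ i ∈ range d, |(m i : ℝ) / d| < 1 ∧ ∃ i < d, |m i| ≠ 1

/-- `|F| ≤ 1`, and `F` takes the same value at `x` and `y` whenever the trajectories of `x` and `y` meet after
`k` steps, where `d ^ (8 k) < |x|, |y|`: `T^k x = T^k y`. For example the characteristic functions of all unions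
of classes of trajectories that meet. -/
def Synchronous (d : ℕ) (m r : ℕ → ℤ) (F : ℤ → ℝ) : Prop :=
  (∀ x, |F x| ≤ 1) ∧ ∀ (k : ℕ) (x y : ℤ), (d : ℤ) ^ (8 * k) < |x| → (d : ℤ) ^ (8 * k) < |y| →
    (T d m r)^[k] x = (T d m r)^[k] y → F x = F y

/-- `S` is invariant: `x ∈ S` if and only if `T x ∈ S` (unions of classes of trajectories that
meet). -/
def Invariant (d : ℕ) (m r : ℕ → ℤ) (S : Set ℤ) : Prop := ∀ x : ℤ, x ∈ S ↔ T d m r x ∈ S

/-- `S` has natural density `δ` on the side `σ` (`σ = 1`: positive integers, `σ = -1`: negative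
integers): `#{x ∈ S : 1 ≤ σ x ≤ N} / N → δ`. -/
def HasDensity (S : Set ℤ) (σ : ℤ) (δ : ℝ) : Prop :=
  Tendsto (fun N : ℕ => (Set.ncard {x : ℤ | x ∈ S ∧ 1 ≤ σ * x ∧ σ * x ≤ N} : ℝ) / N) atTop (𝓝 δ)

/-- `α` is irrational and not a Liouville number: `|l α - a| ≥ c l ^ (-A)` for all integers `a` and `l ≥ 1`. -/
def Diophantine (α : ℝ) : Prop :=
  ∃ A c : ℝ, 0 < c ∧ ∀ l : ℕ, 1 ≤ l → ∀ a : ℤ, c * (l : ℝ) ^ (-A) ≤ |l * α - a|

/-- The real polynomials of degree at most `k` with `k`-th coefficient `α`. -/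
def Lead (k : ℕ) (α : ℝ) (P : Polynomial ℝ) : Prop := P.natDegree ≤ k ∧ P.coeff k = α

open Classical in
/-- The `n` in `[1, X]` for which the fractional part of `P n` is in `[u, v)`. -/
noncomputable def Frac (P : Polynomial ℝ) (u v : ℝ) (X : ℕ) : Finset ℕ :=
  (Icc 1 X).filter (fun n : ℕ => u ≤ Int.fract (P.eval (n : ℝ)) ∧ Int.fract (P.eval (n : ℝ)) < v)

/-! ### proofs -/

open Pool.Agent.K3h65.LP

variable {d : ℕ} {m r : ℕ → ℤ}

theorem adm_of (h : Coprime d m r) : Pool.Agent.H319R3.GC.Adm d m r := PiatetskiShapiroTerms.adm_of h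

theorem sync_of (h : Coprime d m r) {F : ℤ → ℝ} (hF : Synchronous d m r F) (N : ℕ) :
    SyncM d m r N F :=
  syncM_of (Pool.Agent.Y965.GP.syncN_of (by have := h.1; omega) hF.1 hF.2 N)

/-- the discrepancy, for functions that are synchronous up to `X` only -/
theorem discN (h : Coprime d m r) {k : ℕ} (hk : 2 ≤ k) {α : ℝ} (hα : Diophantine α) :
    ∃ K c : ℝ, 0 ≤ K ∧ 0 < c ∧ c < 1 ∧ ∀ σ : ℤ, (σ = 1 ∨ σ = -1) → ∀ X : ℕ, 1 ≤ X → ∀ F : ℤ → ℝ,
      SyncM d m r X F → ∀ P : Polynomial ℝ, Lead k α P →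
      ∀ u v : ℝ, 0 ≤ u → u ≤ v → v ≤ 1 →
      |∑ n ∈ Frac P u v X, F (σ * n) - (v - u) * ∑ n ∈ Icc 1 X, F (σ * n)| ≤ K * (X : ℝ) ^ (1 - c) := by
  obtain ⟨k, rfl⟩ : ∃ k', k = k' + 1 := ⟨k - 1, by omega⟩
  obtain ⟨C1, c1, hC1, hc1, hc2, H⟩ := disc (adm_of h) (k := k) (by omega) hα
  exact ⟨C1, c1, hC1, hc1, hc2, fun σ hσ X hX F hF P hP u v hu huv hv => H σ hσ X hX F hF P hP.1 hP.2 u v hu huv hv⟩

theorem tr_of (h : Coprime d m r) {k : ℕ} (hk : 2 ≤ k) {α : ℝ} (hα : Diophantine α) :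
    ∃ K a : ℝ, 0 ≤ K ∧ 0 < a ∧ ∀ σ : ℤ, (σ = 1 ∨ σ = -1) → ∀ X : ℕ, 1 ≤ X → ∀ P : Polynomial ℝ, Lead k α P →
      ∀ ν : ℝ, 0 ≤ ν → Tr d m r σ X
        (fun n : ℕ => if Int.fract (P.eval (n : ℝ)) < (X : ℝ) ^ (-ν) then 1 else 0) ((X : ℝ) ^ (-ν))
        (K * (X : ℝ) ^ (1 - 2 * a)) := by
  classical
  obtain ⟨K, c, hK, hc0, hc1, H⟩ := discN h hk hα
  refine ⟨K, c / 2, hK, by positivity, fun σ hσ X hX P hP ν hν => ⟨fun n => by dsimp only; split_ifs <;> norm_num, ?_⟩⟩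
  intro F hF
  have hXR : (1 : ℝ) ≤ X := by exact_mod_cast hX
  have h1 := H σ hσ X hX F hF P hP 0 ((X : ℝ) ^ (-ν)) le_rfl (by positivity)
    (Real.rpow_le_one_of_one_le_of_nonpos hXR (by linarith))
  rw [sub_zero] at h1
  have e1 : ∑ n ∈ Frac P 0 ((X : ℝ) ^ (-ν)) X, F (σ * n) =
      ∑ n ∈ Icc 1 X, (if Int.fract (P.eval (n : ℝ)) < (X : ℝ) ^ (-ν) then (1 : ℝ) else 0) * F (σ * (n : ℤ)) := by
    unfold Frac
    rw [sum_filter]
    apply sum_congr rfl
    intro n _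
    simp only [Int.fract_nonneg, true_and]
    split_ifs <;> simp
  rw [e1] at h1
  have e2 : 1 - 2 * (c / 2) = 1 - c := by ring
  rw [e2]
  exact h1

open Classical in
theorem count_eq (σ : ℤ) (P : Polynomial ℝ) (w : ℝ) (S : Set ℤ) (X : ℕ) :
    (((Frac P 0 w X).filter (fun n : ℕ => σ * (n : ℤ) ∈ S)).card : ℝ) =
      ∑ n ∈ Icc 1 X, (if Int.fract (P.eval (n : ℝ)) < w then (1 : ℝ) else 0) *
        Pool.Agent.Y965.GP.ind S (σ * (n : ℤ)) := by
  unfold Frac Pool.Agent.Y965.GP.ind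
  rw [filter_filter, ← Finset.sum_boole]
  apply sum_congr rfl
  intro n _
  simp only [Int.fract_nonneg, true_and]
  by_cases h1 : Int.fract (P.eval (n : ℝ)) < w
  · by_cases h2 : σ * (n : ℤ) ∈ S
    · simp [h1, h2]
    · simp [h1, h2]
  · simp [h1]

open Classical in
/-- **Generalised Collatz maps and polynomials modulo one.** Let `T` be a generalised Collatz map of coprime type with
`Λ < 1` (and some `m_i ≠ ± 1`), let `k ≥ 2` and let `α` be diophantine.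
(1) There are `K` and `c > 0` such that for both signs `σ`, ALL synchronous functions `F`, all `X ≥ 1`, all real
polynomials `P` of degree `k` with leading coefficient `α` and all intervals `[u, v)` in `[0, 1]`, the sum of
`F (σ n)` over the `n ≤ X` for which the fractional part of `P n` is in the interval is `v - u` times the sum
over all `n ≤ X`, up to `K X ^ (1 - c)`.
There is `ν₀ > 0` such that for `0 ≤ ν ≤ ν₀` and both signs `σ`:
(2) for every `B` there is `C` such that for all such `P`, all `X ≥ 1` and all `y ≥ 2` for all but at most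
`C X ^ (1 - ν) / (log y) ^ B` of the `n ≤ X` for which the fractional part of `P n` is less than `X ^ (-ν)` the
trajectory of `σ n` enters `[-y, y]`;
(3) if not all `|m_i|` are equal, for every `ε > 0` and all large `X`, for ALL invariant sets `S` at once `S` has a
natural density `μ` on the side `σ`, and for all such `P` it contains `σ n` for between `(μ - ε) X ^ (1 - ν)` and
`(μ + ε) X ^ (1 - ν)` of the `n ≤ X` for which the fractional part of `P n` is less than `X ^ (-ν)`. -/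
theorem result (d : ℕ) (m r : ℕ → ℤ) (h : Coprime d m r) (k : ℕ) (hk : 2 ≤ k) (α : ℝ) (hα : Diophantine α) :
    (∃ K c : ℝ, 0 < c ∧ ∀ σ : ℤ, (σ = 1 ∨ σ = -1) → ∀ F : ℤ → ℝ, Synchronous d m r F →
      ∀ P : Polynomial ℝ, Lead k α P → ∀ u v : ℝ, 0 ≤ u → u ≤ v → v ≤ 1 → ∀ X : ℕ, 1 ≤ X →
        |∑ n ∈ Frac P u v X, F (σ * n) - (v - u) * ∑ n ∈ Icc 1 X, F (σ * n)| ≤ K * (X : ℝ) ^ (1 - c)) ∧
    ∃ ν₀ : ℝ, 0 < ν₀ ∧ ∀ ν : ℝ, 0 ≤ ν → ν ≤ ν₀ → ∀ σ : ℤ, (σ = 1 ∨ σ = -1) →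
      (∀ B : ℕ, ∃ C : ℝ, ∀ P : Polynomial ℝ, Lead k α P → ∀ (X : ℕ) (y : ℝ), 1 ≤ X → 2 ≤ y →
        (((Frac P 0 ((X : ℝ) ^ (-ν)) X).filter (fun n : ℕ => ∀ j : ℕ,
          y < |(((T d m r)^[j] (σ * n) : ℤ) : ℝ)|)).card : ℝ) ≤ C * (X : ℝ) ^ (1 - ν) / Real.log y ^ B) ∧
      ((∃ i < d, ∃ j < d, |m i| ≠ |m j|) → ∀ ε : ℝ, 0 < ε → ∃ X₀ : ℕ, ∀ S : Set ℤ, Invariant d m r S →
        ∃ μ : ℝ, HasDensity S σ μ ∧ ∀ P : Polynomial ℝ, Lead k α P → ∀ X : ℕ, X₀ ≤ X →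
          |(((Frac P 0 ((X : ℝ) ^ (-ν)) X).filter (fun n : ℕ => σ * (n : ℤ) ∈ S)).card : ℝ) -
            μ * (X : ℝ) ^ (1 - ν)| ≤ ε * (X : ℝ) ^ (1 - ν)) := by
  refine ⟨?_, ?_⟩
  · obtain ⟨K, c, -, hc, -, H⟩ := discN h hk hα
    exact ⟨K, c, hc, fun σ hσ F hF P hP u v hu huv hv X hX => H σ hσ X hX F (sync_of h hF X) P hP u v hu huv hv⟩
  obtain ⟨K, a, hK, ha0, hT⟩ := tr_of h hk hα
  have hpow : ∀ (X : ℕ) (ν : ℝ), 1 ≤ X → (X : ℝ) ^ (-ν) * X = (X : ℝ) ^ (1 - ν) := by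
    intro X ν hX
    have hX0 : (0 : ℝ) < X := by exact_mod_cast hX
    rw [sub_eq_neg_add, Real.rpow_add hX0, Real.rpow_one]
  refine ⟨a, ha0, fun ν hν0 hνa σ hσ => ⟨fun B => ?_, fun hne ε hε => ?_⟩⟩
  · obtain ⟨C, -, hC⟩ := av_sparse (adm_of h) ha0 hK B
    refine ⟨C, fun P hP X y hX hy => ?_⟩
    have hXR : (1 : ℝ) ≤ X := by exact_mod_cast hX
    have h1 := hC σ hσ X hX _ _ (Real.rpow_le_rpow_of_exponent_le hXR (by linarith)) (hT σ hσ X hX P hP ν hν0) y hy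
    rw [hpow X ν hX, ← count_eq] at h1
    exact h1
  · obtain ⟨X0, hX0⟩ := unif_sparse (nat_of h hne hσ) ha0 K hε
    refine ⟨X0 + 1, fun S hS => ?_⟩
    obtain ⟨μ, hμ⟩ := dens_of h hne hσ S hS
    refine ⟨μ, (PiatetskiShapiroTerms.DSs_iff hσ S μ).1 hμ, fun P hP X hX => ?_⟩
    have hXR : (1 : ℝ) ≤ X := by exact_mod_cast (by omega : 1 ≤ X)
    have h1 := hX0 X (by omega) _ _ (Real.rpow_le_rpow_of_exponent_le hXR (by linarith))
      (hT σ hσ X (by omega) P hP ν hν0) S hS μ hμ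
    rw [hpow X ν (by omega), ← count_eq] at h1
    exact h1

end Pool.Agent.Results.MP_39d40e_nt.PolynomialsModuloOne
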