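import Pool.Agent.K3h65.LP.Nat
import Pool.Agent.K3h65.LP.Chr

/-!
# Generalised Collatz maps of coprime type and power residues modulo primes

Let `T` be a generalised Collatz map of coprime type with `Λ < 1`. The integers `n ≤ X` in invariant sets are
distributed independently of the values `χ(n)` of the Dirichlet characters modulo primes `p` with
`X ^ δ ≤ p ≤ X ^ (1 - δ)`, and the invariant sets have their natural densities, and almost all trajectories come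
down, in the classes of `k`-th power residues modulo `p`, for all `k ≤ X ^ (η / 2)`, uniformly in `p`.

Method: the dispersion argument for the fibres of the iterates of `T`; the correlations of `χ` along progressions are
Jacobi sums.
-/

set_option autoImplicit false

namespace Pool.Agent.Results.MP_39d40e_nt.PowerResidueClasses

open Finset Filter Topology

/-- The generalised Collatz map `T(x) = (m_i x - r_i) / d` for `x ≡ i mod d`, `0 ≤ i < d`. -/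
def T (d : ℕ) (m r : ℕ → ℤ) (x : ℤ) : ℤ := (m (x % d).toNat * x - r (x % d).toNat) / d

/-- The data of a map of coprime type (`gcd(m_i, d) = 1`) with `Λ < 1`, that is `∏ |m_i / d| < 1`, and with
some `m_i` different from `1` and `-1`. -/
def Coprime (d : ℕ) (m r : ℕ → ℤ) : Prop :=
  2 ≤ d ∧ (∀ i < d, IsCoprime (m i) (d : ℤ)) ∧ (∀ i < d, r i ≡ i * m i [ZMOD d]) ∧
    ∏ i ∈ range d, |(m i : ℝ) / d| < 1 ∧ ∃ i < d, |m i| ≠ 1

/-- `|F| ≤ 1`, and `F` takes the same value at `x` and `y` whenever the trajectories of `x` and `y` meet after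
`k` steps, where `d ^ (8 k) < |x|, |y|`: `T^k x = T^k y`. For example the characteristic functions of all unions
of classes of trajectories that meet. -/
def Synchronous (d : ℕ) (m r : ℕ → ℤ) (F : ℤ → ℝ) : Prop :=
  (∀ x, |F x| ≤ 1) ∧ ∀ (k : ℕ) (x y : ℤ), (d : ℤ) ^ (8 * k) < |x| → (d : ℤ) ^ (8 * k) < |y| →
    (T d m r)^[k] x = (T d m r)^[k] y → F x = F y

/-- `S` is invariant: `x ∈ S` if and only if `T x ∈ S` (unions of classes of trajectories that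
meet). -/
def Invariant (d : ℕ) (m r : ℕ → ℤ) (S : Set ℤ) : Prop := ∀ x : ℤ, x ∈ S ↔ T d m r x ∈ S

/-- `S` has natural density `δ` on the side `σ` (`σ = 1`: positive integers, `σ = -1`: negative
integers): `#{x ∈ S : 1 ≤ σ x ≤ N} / N → δ`. -/
def HasDensity (S : Set ℤ) (σ : ℤ) (δ : ℝ) : Prop :=
  Tendsto (fun N : ℕ => (Set.ncard {x : ℤ | x ∈ S ∧ 1 ≤ σ * x ∧ σ * x ≤ N} : ℝ) / N) atTop (𝓝 δ)

open Classical in
/-- The `n` in `[1, X]` with `χ(n) = ζ`, where `χ` is a character modulo `p`. -/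
noncomputable def Cl (X p : ℕ) (χ : MulChar (ZMod p) ℂ) (ζ : ℂ) : Finset ℕ :=
  (Icc 1 X).filter (fun n : ℕ => χ (n : ZMod p) = ζ)

/-! ### proofs -/

open Pool.Agent.K3h65.LP

variable {d : ℕ} {m r : ℕ → ℤ}

theorem adm_of (h : Coprime d m r) : Pool.Agent.H319R3.GC.Adm d m r := PiatetskiShapiroTerms.adm_of h

theorem sync_of (h : Coprime d m r) {F : ℤ → ℝ} (hF : Synchronous d m r F) (N : ℕ) :
    SyncM d m r N F :=
  syncM_of (Pool.Agent.Y965.GP.syncN_of (by have := h.1; omega) hF.1 hF.2 N)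

open Classical in
theorem count_eq (σ : ℤ) {p : ℕ} (χ : MulChar (ZMod p) ℂ) (ζ : ℂ) (S : Set ℤ) (X : ℕ) :
    (((Cl X p χ ζ).filter (fun n : ℕ => σ * (n : ℤ) ∈ S)).card : ℝ) =
      ∑ n ∈ Icc 1 X, (if χ (n : ZMod p) = ζ then (1 : ℝ) else 0) * Pool.Agent.Y965.GP.ind S (σ * (n : ℤ)) := by
  unfold Cl Pool.Agent.Y965.GP.ind
  rw [filter_filter, ← Finset.sum_boole]
  apply sum_congr rfl
  intro n _
  by_cases h1 : χ (n : ZMod p) = ζ
  · by_cases h2 : σ * (n : ℤ) ∈ S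
    · simp [h1, h2]
    · simp [h1, h2]
  · simp [h1]

open Classical in
/-- **Generalised Collatz maps and power residues modulo primes.** Let `T` be a generalised Collatz map of coprime type
with `Λ < 1` (and some `m_i ≠ ± 1`), and let `0 < δ ≤ 1/2`. There is `η > 0` such that, for both signs `σ`, uniformly
for all primes `p` with `X ^ δ ≤ p ≤ X ^ (1 - δ)`, all characters `χ` modulo `p`, of any order `k`, and all `ζ` with
`ζ ^ k = 1`:
(1) there is `K` such that for ALL synchronous functions `F` and all `X ≥ 1` the sum of `F (σ n)` over the `n ≤ X` with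
`χ(n) = ζ` is `1 / k` times the sum over all `n ≤ X`, up to `K X ^ (1 - η)`;
(2) for every `B` there is `C` such that for all `X ≥ 1` and `y ≥ 2`, if `k ≤ X ^ (η / 2)`, for all but at most
`C (X / k) / (log y) ^ B` of the `n ≤ X` with `χ(n) = ζ` the trajectory of `σ n` enters `[-y, y]`;
(3) if not all `|m_i|` are equal, for every `ε > 0` and all large `X`, for ALL invariant sets `S` at once `S` has a
natural density `μ` on the side `σ`, and if `k ≤ X ^ (η / 2)` it contains `σ n` for between `(μ - ε) X / k` and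
`(μ + ε) X / k` of the `n ≤ X` with `χ(n) = ζ`. -/
theorem result (d : ℕ) (m r : ℕ → ℤ) (h : Coprime d m r) (δ : ℝ) (hδ : 0 < δ) (hδ1 : δ ≤ 1 / 2) :
    ∃ η : ℝ, 0 < η ∧ ∀ σ : ℤ, (σ = 1 ∨ σ = -1) →
      (∃ K : ℝ, ∀ F : ℤ → ℝ, Synchronous d m r F → ∀ X : ℕ, 1 ≤ X → ∀ (p : ℕ) [Fact p.Prime],
        (X : ℝ) ^ δ ≤ p → (p : ℝ) ≤ (X : ℝ) ^ (1 - δ) → ∀ (χ : MulChar (ZMod p) ℂ) (ζ : ℂ), ζ ^ orderOf χ = 1 →
          |∑ n ∈ Cl X p χ ζ, F (σ * n) - 1 / (orderOf χ : ℝ) * ∑ n ∈ Icc 1 X, F (σ * n)| ≤ K * (X : ℝ) ^ (1 - η)) ∧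
      (∀ B : ℕ, ∃ C : ℝ, ∀ (X : ℕ) (y : ℝ), 1 ≤ X → 2 ≤ y → ∀ (p : ℕ) [Fact p.Prime],
        (X : ℝ) ^ δ ≤ p → (p : ℝ) ≤ (X : ℝ) ^ (1 - δ) → ∀ (χ : MulChar (ZMod p) ℂ) (ζ : ℂ), ζ ^ orderOf χ = 1 →
          (orderOf χ : ℝ) ≤ (X : ℝ) ^ (η / 2) →
          (((Cl X p χ ζ).filter (fun n : ℕ => ∀ j : ℕ, y < |(((T d m r)^[j] (σ * n) : ℤ) : ℝ)|)).card : ℝ) ≤
            C * ((X : ℝ) / orderOf χ) / Real.log y ^ B) ∧
      ((∃ i < d, ∃ j < d, |m i| ≠ |m j|) → ∀ ε : ℝ, 0 < ε → ∃ X₀ : ℕ, ∀ S : Set ℤ, Invariant d m r S →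
        ∃ μ : ℝ, HasDensity S σ μ ∧ ∀ X : ℕ, X₀ ≤ X → ∀ (p : ℕ) [Fact p.Prime],
          (X : ℝ) ^ δ ≤ p → (p : ℝ) ≤ (X : ℝ) ^ (1 - δ) → ∀ (χ : MulChar (ZMod p) ℂ) (ζ : ℂ), ζ ^ orderOf χ = 1 →
            (orderOf χ : ℝ) ≤ (X : ℝ) ^ (η / 2) →
            |(((Cl X p χ ζ).filter (fun n : ℕ => σ * (n : ℤ) ∈ S)).card : ℝ) - μ * ((X : ℝ) / orderOf χ)| ≤
              ε * ((X : ℝ) / orderOf χ)) := by
  obtain ⟨K, η, hK, hη0, hη1, hD⟩ := chr_Tr (adm_of h) hδ hδ1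
  have hT : ∀ (σ : ℤ), (σ = 1 ∨ σ = -1) → ∀ X : ℕ, 1 ≤ X → ∀ (p : ℕ) [Fact p.Prime],
      (X : ℝ) ^ δ ≤ p → (p : ℝ) ≤ (X : ℝ) ^ (1 - δ) → ∀ (χ : MulChar (ZMod p) ℂ) (ζ : ℂ), ζ ^ orderOf χ = 1 →
      Tr d m r σ X (fun n : ℕ => if χ (n : ZMod p) = ζ then 1 else 0) (1 / (orderOf χ : ℝ))
        (K * (X : ℝ) ^ (1 - 2 * (η / 2))) := by
    intro σ hσ X hX p hp hp1 hp2 χ ζ hζ
    refine ⟨fun n => by dsimp only; split_ifs <;> norm_num, fun F hF => ?_⟩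
    have e2 : 1 - 2 * (η / 2) = 1 - η := by ring
    rw [e2]
    exact hD σ hσ X hX p hp1 hp2 χ ζ hζ F hF
  have hord : ∀ (X p : ℕ) [Fact p.Prime] (χ : MulChar (ZMod p) ℂ), 1 ≤ X → (orderOf χ : ℝ) ≤ (X : ℝ) ^ (η / 2) →
      (X : ℝ) ^ (-(η / 2)) ≤ 1 / (orderOf χ : ℝ) := by
    intro X p hp χ hX hle
    have hX0 : (0 : ℝ) < X := by exact_mod_cast hX
    have hk : (0 : ℝ) < orderOf χ := by exact_mod_cast MulChar.orderOf_pos χ
    rw [Real.rpow_neg hX0.le, ← one_div]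
    exact one_div_le_one_div_of_le hk hle
  refine ⟨η, hη0, fun σ hσ => ⟨⟨K, ?_⟩, fun B => ?_, fun hne ε hε => ?_⟩⟩
  · intro F hF X hX p hp hp1 hp2 χ ζ hζ
    have h3 := hD σ hσ X hX p hp1 hp2 χ ζ hζ F (sync_of h hF X)
    have e1 : ∑ n ∈ Cl X p χ ζ, F (σ * n) = ∑ n ∈ Icc 1 X, (if χ (n : ZMod p) = ζ then (1 : ℝ) else 0) *
        F (σ * (n : ℤ)) := by
      unfold Cl
      rw [sum_filter]
      apply sum_congr rfl
      intro n _
      split_ifs <;> simp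
    rw [e1]
    exact h3
  · obtain ⟨C, -, hC⟩ := av_sparse (adm_of h) (show 0 < η / 2 by positivity) hK B
    refine ⟨C, fun X y hX hy p hp hp1 hp2 χ ζ hζ hle => ?_⟩
    have h1 := hC σ hσ X hX _ _ (hord X p χ hX hle) (hT σ hσ X hX p hp1 hp2 χ ζ hζ) y hy
    rw [← count_eq, one_div_mul_eq_div] at h1
    exact h1
  · obtain ⟨X0, hX0⟩ := unif_sparse (nat_of h hne hσ) (show 0 < η / 2 by positivity) K hε
    refine ⟨X0 + 1, fun S hS => ?_⟩
    obtain ⟨μ, hμ⟩ := dens_of h hne hσ S hS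
    refine ⟨μ, (PiatetskiShapiroTerms.DSs_iff hσ S μ).1 hμ, fun X hX p hp hp1 hp2 χ ζ hζ hle => ?_⟩
    have h1 := hX0 X (by omega) _ _ (hord X p χ (by omega) hle) (hT σ hσ X (by omega) p hp1 hp2 χ ζ hζ) S hS μ hμ
    rw [← count_eq, one_div_mul_eq_div] at h1
    exact h1

end Pool.Agent.Results.MP_39d40e_nt.PowerResidueClasses
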